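import Pool.Agent.W326.DU.Stm

/-!
# RESA: exactness of the total complex (MP_9fa67c_al)
-/

set_option autoImplicit false

namespace Pool.Agent.W363.DU

open Pool.Agent.W326.DU

/-! ### Combinatorial facts -/

lemma adj_symm (a b : Fin 10) (h : adj a b) : adj b a := by
  obtain ⟨i, h | h⟩ := h
  · exact ⟨i, Or.inr h⟩
  · exact ⟨i, Or.inl h⟩

lemma adj_irr : ∀ a : Fin 10, ¬ adj a a := by decide +kernel

lemma adj_K4' : ∀ a b : Fin 10, adj a b → ∀ c, adj a c → adj b c → ∀ d, adj a d → adj b d →
    ¬ adj c d := by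
  decide +kernel

lemma adj_K4 (a b c d : Fin 10) (h1 : adj a b) (h2 : adj a c) (h3 : adj a d) (h4 : adj b c)
    (h5 : adj b d) : ¬ adj c d := adj_K4' a b h1 c h2 h4 d h3 h5

lemma eL_cnt : ∀ a b : Fin 10, adj a b → (∑ i : Fin 26, ((if eL i = (a, b) then (1:ℤ) else 0)
    + (if eL i = (b, a) then 1 else 0))) = 1 := by
  decide +kernel

lemma tL_cnt : ∀ a b c : Fin 10, adj a b → adj b c → adj a c → (∑ j : Fin 16,
    ((if tL j = (a, b, c) then (1:ℤ) else 0) + (if tL j = (a, c, b) then 1 else 0)
  + (if tL j = (b, c, a) then 1 else 0) + (if tL j = (b, a, c) then 1 else 0)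
  + (if tL j = (c, a, b) then 1 else 0) + (if tL j = (c, b, a) then 1 else 0))) = 1 := by
  decide +kernel

lemma eL_dual : ∀ i i' : Fin 26, sg2 i' (eL i).1 (eL i).2 = if i' = i then 1 else 0 := by
  decide +kernel

lemma tL_dual : ∀ j j' : Fin 16, sg3 j' (tL j).1 (tL j).2.1 (tL j).2.2 = if j' = j then 1 else 0 := by
  decide +kernel

lemma tL_adj : ∀ j : Fin 16, adj (tL j).1 (tL j).2.1 ∧ adj (tL j).2.1 (tL j).2.2 ∧
    adj (tL j).1 (tL j).2.2 := by
  decide +kernel

lemma eL_adj (i : Fin 26) : adj (eL i).1 (eL i).2 := ⟨i, Or.inl rfl⟩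

lemma mm_adj : ∀ k : Fin 4, adj (mm k) (mm (k + 1)) := by decide +kernel
lemma pp_adj : ∀ k : Fin 4, adj (pp k) (pp (k + 1)) := by decide +kernel

/-- the vertices of the core cycle -/
def S4 : Finset (Fin 10) := {4, 5, 6, 7}

lemma pp_mem : ∀ k : Fin 4, pp k ∈ S4 := by decide +kernel

lemma S4_notri : ∀ a ∈ S4, ∀ b ∈ S4, ∀ c ∈ S4, adj a b → adj b c → ¬ adj a c := by decide +kernel

lemma pp_nbr : ∀ k : Fin 4, ∀ a ∈ S4, adj a (pp k) → a = pp (k - 1) ∨ a = pp (k + 1) := by
  decide +kernel

lemma pp_ne : ∀ k : Fin 4, pp (k - 1) ≠ pp (k + 1) := by decide +kernel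

lemma pp_inj : ∀ k l : Fin 4, pp k = pp l → k = l := by decide +kernel

section
variable {M : Type} [AddCommGroup M]

/-! ### Alternating functions -/

lemma alt2_neg (y : Fin 26 → M) (a b : Fin 10) : alt2 y a b = - alt2 y b a := by
  unfold alt2
  rw [← Finset.sum_neg_distrib]
  refine Finset.sum_congr rfl fun i _ => ?_
  rw [← neg_smul]
  congr 1
  unfold sg2
  ring

lemma alt2_zero (y : Fin 26 → M) (a b : Fin 10) (h : ¬ adj a b) : alt2 y a b = 0 := by
  unfold alt2
  refine Finset.sum_eq_zero fun i _ => ?_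
  have h1 : eL i ≠ (a, b) := fun h' => h ⟨i, Or.inl h'⟩
  have h2 : eL i ≠ (b, a) := fun h' => h ⟨i, Or.inr h'⟩
  simp [sg2, h1, h2]

lemma alt2_isAlt (y : Fin 26 → M) : IsAlt2 adj ((Finset.univ : Finset (Fin 10)) : Set (Fin 10)) (alt2 y) := by
  refine ⟨alt2_neg y, fun a b h => alt2_zero y a b fun h' => h ?_⟩
  exact ⟨by simp, by simp, h'⟩

lemma alt2_eL (y : Fin 26 → M) (i : Fin 26) : alt2 y (eL i).1 (eL i).2 = y i := by
  unfold alt2
  simp only [eL_dual]
  simp

lemma alt3_eL (z : Fin 16 → M) (j : Fin 16) : alt3 z (tL j).1 (tL j).2.1 (tL j).2.2 = z j := by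
  unfold alt3
  simp only [tL_dual]
  simp

lemma alt3_isAlt (z : Fin 16 → M) :
    IsAlt3 adj ((Finset.univ : Finset (Fin 10)) : Set (Fin 10)) (alt3 z) := by
  refine ⟨fun a b c => ?_, fun a b c => ?_, fun a b c h => ?_⟩
  · unfold alt3
    rw [← Finset.sum_neg_distrib]
    refine Finset.sum_congr rfl fun i _ => ?_
    rw [← neg_smul]
    congr 1
    unfold sg3
    ring
  · unfold alt3
    rw [← Finset.sum_neg_distrib]
    refine Finset.sum_congr rfl fun i _ => ?_
    rw [← neg_smul]
    congr 1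
    unfold sg3
    ring
  · unfold alt3
    refine Finset.sum_eq_zero fun j _ => ?_
    have h0 : ¬ (adj a b ∧ adj b c ∧ adj a c) := fun h' => h ⟨by simp, by simp, by simp, h'⟩
    obtain ⟨t1, t2, t3⟩ := tL_adj j
    have n1 : tL j ≠ (a, b, c) := by
      intro h'; rw [h'] at t1 t2 t3; exact h0 ⟨t1, t2, t3⟩
    have n2 : tL j ≠ (a, c, b) := by
      intro h'; rw [h'] at t1 t2 t3; exact h0 ⟨t3, adj_symm _ _ t2, t1⟩
    have n3 : tL j ≠ (b, c, a) := by
      intro h'; rw [h'] at t1 t2 t3; exact h0 ⟨adj_symm _ _ t3, t1, adj_symm _ _ t2⟩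
    have n4 : tL j ≠ (b, a, c) := by
      intro h'; rw [h'] at t1 t2 t3; exact h0 ⟨adj_symm _ _ t1, t3, t2⟩
    have n5 : tL j ≠ (c, a, b) := by
      intro h'; rw [h'] at t1 t2 t3; exact h0 ⟨t2, adj_symm _ _ t3, adj_symm _ _ t1⟩
    have n6 : tL j ≠ (c, b, a) := by
      intro h'; rw [h'] at t1 t2 t3
      exact h0 ⟨adj_symm _ _ t2, adj_symm _ _ t1, adj_symm _ _ t3⟩
    simp [sg3, n1, n2, n3, n4, n5, n6]

lemma ite_smul_eL (y : Fin 10 → Fin 10 → M) (i : Fin 26) (a b : Fin 10) :
    (if eL i = (a, b) then (1:ℤ) else 0) • y (eL i).1 (eL i).2 =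
      (if eL i = (a, b) then (1:ℤ) else 0) • y a b := by
  by_cases h : eL i = (a, b)
  · rw [h]
  · simp [h]

/-- conversion of alternating functions on the edges -/
lemma conv2 (S : Set (Fin 10)) (y : Fin 10 → Fin 10 → M) (h : IsAlt2 adj S y) (a b : Fin 10) :
    alt2 (fun i => y (eL i).1 (eL i).2) a b = y a b := by
  by_cases hab : adj a b
  · unfold alt2 sg2
    have : ∀ i : Fin 26, ((if eL i = (a, b) then (1:ℤ) else 0) - (if eL i = (b, a) then 1 else 0)) •
        y (eL i).1 (eL i).2 = ((if eL i = (a, b) then (1:ℤ) else 0)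
          + (if eL i = (b, a) then 1 else 0)) • y a b := by
      intro i
      rw [sub_smul, ite_smul_eL, ite_smul_eL, add_smul, h.1 b a, smul_neg, sub_neg_eq_add]
    rw [Finset.sum_congr rfl fun i _ => this i, ← Finset.sum_smul, eL_cnt a b hab, one_smul]
  · rw [alt2_zero _ a b hab, h.2 a b fun h' => hab h'.2.2]

lemma ite_smul_tL (z : Fin 10 → Fin 10 → Fin 10 → M) (j : Fin 16) (a b c : Fin 10) :
    (if tL j = (a, b, c) then (1:ℤ) else 0) • z (tL j).1 (tL j).2.1 (tL j).2.2 =
      (if tL j = (a, b, c) then (1:ℤ) else 0) • z a b c := by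
  by_cases h : tL j = (a, b, c)
  · rw [h]
  · simp [h]

/-- conversion of alternating functions on the triangles -/
lemma conv3 (S : Set (Fin 10)) (z : Fin 10 → Fin 10 → Fin 10 → M) (h : IsAlt3 adj S z)
    (a b c : Fin 10) :
    alt3 (fun j => z (tL j).1 (tL j).2.1 (tL j).2.2) a b c = z a b c := by
  by_cases hab : adj a b ∧ adj b c ∧ adj a c
  · unfold alt3 sg3
    have e2 : z a c b = - z a b c := h.2.1 a c b
    have e4 : z b a c = - z a b c := h.1 b a c
    have e3 : z b c a = z a b c := by rw [h.2.1 b c a, e4, neg_neg]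
    have e5 : z c a b = z a b c := by rw [h.1 c a b, e2, neg_neg]
    have e6 : z c b a = - z a b c := by rw [h.1 c b a, e3]
    have : ∀ j : Fin 16, ((if tL j = (a, b, c) then (1:ℤ) else 0) - (if tL j = (a, c, b) then 1 else 0)
      + (if tL j = (b, c, a) then 1 else 0) - (if tL j = (b, a, c) then 1 else 0)
      + (if tL j = (c, a, b) then 1 else 0) - (if tL j = (c, b, a) then 1 else 0)) •
        z (tL j).1 (tL j).2.1 (tL j).2.2 =
      ((if tL j = (a, b, c) then (1:ℤ) else 0) + (if tL j = (a, c, b) then 1 else 0)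
      + (if tL j = (b, c, a) then 1 else 0) + (if tL j = (b, a, c) then 1 else 0)
      + (if tL j = (c, a, b) then 1 else 0) + (if tL j = (c, b, a) then 1 else 0)) • z a b c := by
      intro j
      simp only [sub_smul, add_smul, ite_smul_tL]
      rw [e2, e3, e4, e5, e6]
      simp only [smul_neg, sub_neg_eq_add]
    rw [Finset.sum_congr rfl fun j _ => this j, ← Finset.sum_smul, tL_cnt a b c hab.1 hab.2.1 hab.2.2,
      one_smul]
  · have h1 := (alt3_isAlt (fun j => z (tL j).1 (tL j).2.1 (tL j).2.2)).2.2 a b c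
      (fun h' => hab h'.2.2.2)
    rw [h1, h.2.2 a b c fun h' => hab h'.2.2.2]

/-! ### Cycle functions -/

/-- the sign of an ordered pair with respect to another one -/
def D (p : Fin 10 × Fin 10) (a b : Fin 10) : ℤ :=
  (if p = (a, b) then 1 else 0) - (if p = (b, a) then 1 else 0)

lemma D_swap (a b c d : Fin 10) : D (b, a) c d = - D (a, b) c d := by
  unfold D
  have h1 : ((b, a) = (c, d)) ↔ ((a, b) = (d, c)) := by
    simp only [Prod.mk.injEq]; exact and_comm
  have h2 : ((b, a) = (d, c)) ↔ ((a, b) = (c, d)) := by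
    simp only [Prod.mk.injEq]; exact and_comm
  simp only [h1, h2]
  ring

lemma D_split (a b c d : Fin 10) : D (a, b) c d =
    (if a = c then (if d = b then 1 else 0) else 0) - (if a = d then (if c = b then 1 else 0) else 0) := by
  unfold D
  simp only [Prod.mk.injEq, ite_and, eq_comm (a := b)]

lemma D_one : ∀ k : Fin 4, D (pp k, pp (k + 1)) (pp k) (pp (k + 1)) = 1 := by decide +kernel

lemma D_nil : ∀ k l : Fin 4, l ≠ k → D (pp k, pp (k + 1)) (pp l) (pp (l + 1)) = 0 := by
  decide +kernel

/-- the alternating function attached to a function on a cycle -/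
def Y (p : Fin 4 → Fin 10) (v : Fin 4 → M) (a b : Fin 10) : M := ∑ k, D (a, b) (p k) (p (k + 1)) • v k

lemma Y_alt (p : Fin 4 → Fin 10) (v : Fin 4 → M) (S : Set (Fin 10)) (hp : ∀ k, adj (p k) (p (k + 1)))
    (hS : ∀ k, p k ∈ S) : IsAlt2 adj S (Y p v) := by
  refine ⟨fun a b => ?_, fun a b h => ?_⟩
  · unfold Y
    rw [← Finset.sum_neg_distrib]
    refine Finset.sum_congr rfl fun k _ => ?_
    rw [D_swap a b, neg_smul, neg_neg]
  · unfold Y
    refine Finset.sum_eq_zero fun k _ => ?_
    have h1 : (a, b) ≠ (p k, p (k + 1)) := by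
      intro h'
      rw [Prod.mk.injEq] at h'
      rw [h'.1, h'.2] at h
      exact h ⟨hS _, hS _, hp k⟩
    have h2 : (a, b) ≠ (p (k + 1), p k) := by
      intro h'
      rw [Prod.mk.injEq] at h'
      rw [h'.1, h'.2] at h
      exact h ⟨hS _, hS _, adj_symm _ _ (hp k)⟩
    simp only [D, h1, h2, if_false, sub_zero, zero_smul]

lemma Y_sum (R : Fin 10 → M →+ M) (p : Fin 4 → Fin 10) (v : Fin 4 → M) (b : Fin 10) :
    ∑ a, R a (Y p v a b) = ∑ k, (if p k = b then
      (R (p (k - 1)) (v (k - 1)) - R (p (k + 1)) (v k)) else 0) := by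
  have h1 : ∀ k : Fin 4, ∑ a, R a (D (a, b) (p k) (p (k + 1)) • v k) =
      (if p (k + 1) = b then R (p k) (v k) else 0) - (if p k = b then R (p (k + 1)) (v k) else 0) := by
    intro k
    simp only [D_split, sub_smul, map_sub, Finset.sum_sub_distrib]
    congr 1
    · rw [Finset.sum_eq_single (p k)]
      · rw [if_pos rfl]
        split_ifs <;> simp
      · intro a _ ha
        rw [if_neg ha]; simp
      · intro h; exact absurd (Finset.mem_univ _) h
    · rw [Finset.sum_eq_single (p (k + 1))]
      · rw [if_pos rfl]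
        split_ifs <;> simp
      · intro a _ ha
        rw [if_neg ha]; simp
      · intro h; exact absurd (Finset.mem_univ _) h
  have h2 : ∑ a, R a (Y p v a b) = ∑ k, ∑ a, R a (D (a, b) (p k) (p (k + 1)) • v k) := by
    rw [Finset.sum_comm]
    refine Finset.sum_congr rfl fun a _ => ?_
    unfold Y
    rw [map_sum]
  rw [h2, Finset.sum_congr rfl fun k _ => h1 k, Finset.sum_sub_distrib]
  have h3 : ∑ k : Fin 4, (if p (k + 1) = b then R (p k) (v k) else 0) =
      ∑ k : Fin 4, (if p k = b then R (p (k - 1)) (v (k - 1)) else 0) := by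
    rw [← Equiv.sum_comp (Equiv.addRight (1 : Fin 4))
      (fun k : Fin 4 => if p k = b then R (p (k - 1)) (v (k - 1)) else 0)]
    refine Finset.sum_congr rfl fun k _ => ?_
    simp only [Equiv.coe_addRight, add_sub_cancel_right]
  rw [h3, ← Finset.sum_sub_distrib]
  refine Finset.sum_congr rfl fun k _ => ?_
  split_ifs <;> simp

lemma f2_eq (T : M →+ M) (u : Fin 4 → M) (i : Fin 26) :
    f2 T u i = Y mm (fun k => T (u k)) (eL i).1 (eL i).2 - Y pp u (eL i).1 (eL i).2 := by
  unfold f2 Y
  rw [← Finset.sum_sub_distrib]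
  rfl

lemma alt2_f2 (T : M →+ M) (u : Fin 4 → M) (a b : Fin 10) :
    alt2 (f2 T u) a b = Y mm (fun k => T (u k)) a b - Y pp u a b := by
  have h1 := Y_alt mm (fun k => T (u k)) Set.univ mm_adj fun k => Set.mem_univ _
  have h2 := Y_alt pp u Set.univ pp_adj fun k => Set.mem_univ _
  have h3 : IsAlt2 adj Set.univ (fun a b => Y mm (fun k => T (u k)) a b - Y pp u a b) := by
    refine ⟨fun a b => ?_, fun a b h => ?_⟩
    · simp only
      rw [h1.1 a b, h2.1 a b]; abel
    · simp only
      rw [h1.2 a b h, h2.2 a b h, sub_zero]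
  have h4 := conv2 Set.univ _ h3 a b
  rw [← h4]
  congr 1
  funext i
  exact f2_eq T u i

/-- the chain map identity in degree 2 -/
lemma c2_f2 (R : Fin 10 → M →+ M) (T : M →+ M) (hT : ∀ k x, R (mm k) (T x) = T (R (pp k) x))
    (u : Fin 4 → M) (b : Fin 10) : c2 R (f2 T u) b = f1 T (k2 R u) b := by
  unfold c2
  simp only [alt2_f2, map_sub, Finset.sum_sub_distrib]
  rw [Y_sum, Y_sum]
  unfold f1
  rw [← Finset.sum_sub_distrib]
  refine Finset.sum_congr rfl fun k _ => ?_
  unfold k2
  simp only [hT, map_sub]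

lemma Im_single (R : Fin 10 → M →+ M) (S : Set (Fin 10)) {v : Fin 10} (hv : v ∈ S) (x : M) :
    R v x ∈ Im R S := by
  unfold Im
  exact (le_iSup₂ (f := fun (s : Fin 10) (_ : s ∈ S) => (R s).range) v hv) ⟨x, rfl⟩

lemma Im_pp (R : Fin 10 → M →+ M) (x : M) (hx : x ∈ Im R (Set.range pp)) :
    ∃ w : Fin 4 → M, x = ∑ k, R (pp k) (w k) := by
  unfold Im at hx
  have h : (⨆ s ∈ Set.range pp, (R s).range) ≤
      ({ carrier := {x | ∃ w : Fin 4 → M, x = ∑ k, R (pp k) (w k)}
         zero_mem' := ⟨0, by simp⟩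
         add_mem' := by
          rintro _ _ ⟨w, rfl⟩ ⟨w', rfl⟩
          exact ⟨w + w', by simp [Finset.sum_add_distrib]⟩
         neg_mem' := by
          rintro _ ⟨w, rfl⟩
          exact ⟨-w, by simp⟩ } : AddSubgroup M) := by
    refine iSup₂_le ?_
    rintro _ ⟨k, rfl⟩ _ ⟨y, rfl⟩
    refine ⟨Pi.single k y, ?_⟩
    rw [Finset.sum_eq_single k]
    · simp
    · intro l _ hl
      simp [hl]
    · intro h; exact absurd (Finset.mem_univ _) h
  exact h hx

lemma c1_f1 (R : Fin 10 → M →+ M) (T : M →+ M) (hT : ∀ k x, R (mm k) (T x) = T (R (pp k) x))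
    (w : Fin 4 → M) : c1 R (f1 T w) = T (k1 R w) - k1 R w := by
  have h1 : c1 R (f1 T w) = ∑ v, ∑ k, (R v (if mm k = v then T (w k) else 0) -
      R v (if pp k = v then w k else 0)) := by
    unfold c1
    refine Finset.sum_congr rfl fun v _ => ?_
    unfold f1
    rw [map_sum]
    exact Finset.sum_congr rfl fun k _ => map_sub _ _ _
  rw [h1, Finset.sum_comm]
  unfold k1
  rw [map_sum, ← Finset.sum_sub_distrib]
  refine Finset.sum_congr rfl fun k _ => ?_
  rw [Finset.sum_sub_distrib, ← hT]
  congr 1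
  · rw [Finset.sum_eq_single (mm k)]
    · rw [if_pos rfl]
    · intro a _ ha
      rw [if_neg (Ne.symm ha)]; simp
    · intro h; exact absurd (Finset.mem_univ _) h
  · rw [Finset.sum_eq_single (pp k)]
    · rw [if_pos rfl]
    · intro a _ ha
      rw [if_neg (Ne.symm ha)]; simp
    · intro h; exact absurd (Finset.mem_univ _) h

end

/-- **RESA** -/
theorem th (hEX : PropEX) : PropRESA := by
  intro M _ R T hReg hT hstar
  have hex := hEX (Fin 10) M adj R adj_symm adj_irr adj_K4 hReg
  refine ⟨?_, ?_, ?_⟩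
  · -- (1)
    intro x m hx
    have hm1 : T m - m ∈ Im R Set.univ := by
      have : T m - m = - c1 R x := by
        rw [eq_neg_iff_add_eq_zero, add_comm]; exact hx
      rw [this]
      refine neg_mem ?_
      unfold c1
      exact sum_mem fun v _ => Im_single R _ (Set.mem_univ v) _
    obtain ⟨w', hw'⟩ := Im_pp R m (hstar m hm1)
    have hk : k1 R (fun k => - w' k) = - m := by
      unfold k1
      simp only [map_neg, Finset.sum_neg_distrib]
      rw [← hw']
    have h1 : ∑ v, R v (x v - f1 T (fun k => - w' k) v) = 0 := by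
      have h2 := c1_f1 R T hT (fun k => - w' k)
      rw [hk] at h2
      simp only [map_sub, Finset.sum_sub_distrib]
      have h3 : ∑ v, R v (x v) = c1 R x := rfl
      have h4 : ∑ v, R v (f1 T (fun k => - w' k) v) = c1 R (f1 T (fun k => - w' k)) := rfl
      rw [h3, h4, h2, map_neg]
      rw [← hx]
      abel
    obtain ⟨y0, hy0, hy1⟩ := (hex Finset.univ).1 (fun v => x v - f1 T (fun k => - w' k) v)
      (fun v hv => absurd (Finset.mem_univ v) hv) h1
    refine ⟨fun i => y0 (eL i).1 (eL i).2, fun k => - w' k, fun b => ?_, ?_⟩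
    · unfold c2
      simp only [conv2 _ y0 hy0]
      rw [← hy1 b, sub_add_cancel]
    · rw [hk, neg_neg]
  · -- (2)
    intro y w hy hw
    -- the function on the core cycle
    have hx1 : ∑ v, R v (∑ k, if pp k = v then w k else 0) = 0 := by
      refine Eq.trans ?_ hw
      unfold k1
      have h2 : ∀ v : Fin 10, R v (∑ k, if pp k = v then w k else 0) =
          ∑ k, (if pp k = v then R (pp k) (w k) else 0) := by
        intro v
        rw [map_sum]
        refine Finset.sum_congr rfl fun k _ => ?_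
        split_ifs with h
        · rw [h]
        · exact map_zero _
      rw [Finset.sum_congr rfl fun v _ => h2 v, Finset.sum_comm]
      refine Finset.sum_congr rfl fun k _ => ?_
      rw [Finset.sum_ite_eq Finset.univ (pp k) fun _ => R (pp k) (w k), if_pos (Finset.mem_univ _)]
    obtain ⟨y', hy', hy2⟩ := (hex S4).1 (fun v => ∑ k, if pp k = v then w k else 0) (by
      intro v hv
      refine Finset.sum_eq_zero fun k _ => ?_
      rw [if_neg]
      rintro rfl
      exact hv (pp_mem k)) hx1
    have hwk : ∀ k, w k = R (pp (k - 1)) (y' (pp (k - 1)) (pp k)) -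
        R (pp (k + 1)) (y' (pp k) (pp (k + 1))) := by
      intro k
      have h1 : (∑ l, if pp l = pp k then w l else 0) = w k := by
        rw [Finset.sum_eq_single k]
        · rw [if_pos rfl]
        · intro l _ hl
          rw [if_neg fun h => hl (pp_inj _ _ h)]
        · intro h; exact absurd (Finset.mem_univ _) h
      have h2 := hy2 (pp k)
      rw [h1] at h2
      rw [h2, Finset.sum_eq_add (pp (k - 1)) (pp (k + 1)) (pp_ne k)]
      · rw [hy'.1 (pp (k + 1)) (pp k), map_neg, ← sub_eq_add_neg]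
      · intro a _ ha
        rw [hy'.2 a (pp k), map_zero]
        rintro ⟨ha1, _, ha3⟩
        rcases pp_nbr k a ha1 ha3 with h | h
        · exact ha.1 h
        · exact ha.2 h
      · intro h; exact absurd (Finset.mem_univ _) h
      · intro h; exact absurd (Finset.mem_univ _) h
    set u : Fin 4 → M := fun k => - y' (pp k) (pp (k + 1)) with hu
    have hku : ∀ k, k2 R u k = - w k := by
      intro k
      rw [hwk k]
      unfold k2
      simp only [hu, map_neg, sub_add_cancel]
      abel
    have hc2 : ∀ b, ∑ a, R a (alt2 (fun i => y i - f2 T u i) a b) = 0 := by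
      intro b
      have h1 : ∀ a, alt2 (fun i => y i - f2 T u i) a b = alt2 y a b - alt2 (f2 T u) a b := by
        intro a
        unfold alt2
        rw [← Finset.sum_sub_distrib]
        exact Finset.sum_congr rfl fun i _ => smul_sub _ _ _
      simp only [h1, map_sub, Finset.sum_sub_distrib]
      have h2 : ∑ a, R a (alt2 y a b) = c2 R y b := rfl
      have h3 : ∑ a, R a (alt2 (f2 T u) a b) = c2 R (f2 T u) b := rfl
      rw [h2, h3, c2_f2 R T hT u b]
      have h4 : f1 T (k2 R u) b = - f1 T w b := by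
        unfold f1
        rw [← Finset.sum_neg_distrib]
        refine Finset.sum_congr rfl fun k _ => ?_
        rw [hku k]
        split_ifs <;> simp only [map_neg, neg_sub, sub_zero, zero_sub, neg_neg, neg_zero, sub_neg_eq_add] <;> abel
      rw [h4, sub_neg_eq_add]
      exact hy b
    obtain ⟨z0, hz0, hz1⟩ := (hex Finset.univ).2.1 _ (alt2_isAlt _) hc2
    refine ⟨fun j => z0 (tL j).1 (tL j).2.1 (tL j).2.2, u, fun i => ?_, fun k => ?_⟩
    · unfold c3
      simp only [conv3 _ z0 hz0]
      rw [← hz1, alt2_eL]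
      exact sub_add_cancel _ _
    · rw [hku k, neg_neg]
  · -- (3)
    intro z u hz hu
    have hu0 : ∀ k, u k = 0 := by
      have h1 : ∀ b, ∑ a, R a (Y pp u a b) = 0 := by
        intro b
        rw [Y_sum]
        refine Finset.sum_eq_zero fun k _ => ?_
        have := hu k
        unfold k2 at this
        rw [this]
        split_ifs <;> rfl
      obtain ⟨z', hz', hz2⟩ := (hex S4).2.1 (Y pp u) (Y_alt pp u _ pp_adj (fun k => by
        rw [Finset.mem_coe]; exact pp_mem k)) h1
      have hz0 : ∀ a b c, z' a b c = 0 := by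
        intro a b c
        refine hz'.2.2 a b c ?_
        rintro ⟨ha, hb, hc, h1, h2, h3⟩
        exact S4_notri a ha b hb c hc h1 h2 h3
      have hY : ∀ a b, Y pp u a b = 0 := by
        intro a b
        rw [hz2]
        simp [hz0]
      intro k
      have h2 := hY (pp k) (pp (k + 1))
      unfold Y at h2
      rw [Finset.sum_eq_single k] at h2
      · rw [D_one k, one_smul] at h2
        exact h2
      · intro l _ hl
        have h3 := D_nil k l hl
        rw [h3, zero_smul]
      · intro h; exact absurd (Finset.mem_univ _) h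
    refine ⟨?_, hu0⟩
    have hf2 : ∀ i, f2 T u i = 0 := by
      intro i
      unfold f2
      refine Finset.sum_eq_zero fun k _ => ?_
      rw [hu0 k]
      simp
    have hc3 : ∀ i, c3 R z i = 0 := by
      intro i
      have := hz i
      rwa [hf2, add_zero] at this
    have h0 : ∀ b c, ∑ a, R a (alt3 z a b c) = 0 := by
      intro b c
      have hA := alt3_isAlt z
      by_cases hbc : adj b c
      · obtain ⟨i, h | h⟩ := hbc
        · have := hc3 i
          unfold c3 at this
          rw [h] at this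
          exact this
        · have := hc3 i
          unfold c3 at this
          rw [h] at this
          simp only at this
          have h2 : ∑ a, R a (alt3 z a b c) = - ∑ a, R a (alt3 z a c b) := by
            rw [← Finset.sum_neg_distrib]
            refine Finset.sum_congr rfl fun a _ => ?_
            rw [hA.2.1 a b c, map_neg]
          rw [h2, this, neg_zero]
      · refine Finset.sum_eq_zero fun a _ => ?_
        rw [hA.2.2 a b c fun h' => hbc h'.2.2.2.2.1, map_zero]
    have hfin := (hex Finset.univ).2.2 _ (alt3_isAlt z) h0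
    intro j
    rw [← alt3_eL z j]
    exact hfin _ _ _

end Pool.Agent.W363.DU
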